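import Pool.Agent.R544.EM.Low

/-!
The blocks of `n` digits at a good place of the numbers `x + m α`, `m < b ^ n`, and the number of the
words which stand infinitely often in `x + m α`.
-/

set_option autoImplicit false

namespace Pool.Agent.R544.EM

open Finset
open scoped Nat

/-- the `k` digits of `y` in base `b` after the `i`-th digit, read as a number -/
noncomputable def word (b k : ℕ) (y : ℝ) (i : ℕ) : ℤ := ⌊y * (b : ℝ) ^ (i + k)⌋ % (b : ℤ) ^ k

lemma word_eq (b : ℕ) (hb : 2 ≤ b) (k : ℕ) (y : ℝ) (i : ℕ) :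
    word b k y i = ⌊Int.fract (y * (b : ℝ) ^ i) * (b : ℝ) ^ k⌋ := by
  have hb0 : (0 : ℝ) < b := by positivity
  have hbk : (0 : ℝ) < (b : ℝ) ^ k := by positivity
  set z := y * (b : ℝ) ^ i with hz
  have e : y * (b : ℝ) ^ (i + k) = Int.fract z * (b : ℝ) ^ k + ((⌊z⌋ * (b : ℤ) ^ k : ℤ) : ℝ) := by
    push_cast
    rw [pow_add, ← mul_assoc, ← hz, ← add_mul, Int.fract_add_floor]
  unfold word
  rw [e, Int.floor_add_intCast, Int.add_mul_emod_self_right]
  refine Int.emod_eq_of_lt (Int.floor_nonneg.2 (mul_nonneg (Int.fract_nonneg _) hbk.le)) ?_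
  rw [Int.floor_lt]
  push_cast
  have := Int.fract_lt_one z
  nlinarith

lemma word_nonneg (b : ℕ) (hb : 2 ≤ b) (k : ℕ) (y : ℝ) (i : ℕ) : 0 ≤ word b k y i :=
  Int.emod_nonneg _ (by positivity)

lemma word_lt (b : ℕ) (hb : 2 ≤ b) (k : ℕ) (y : ℝ) (i : ℕ) : word b k y i < (b : ℤ) ^ k :=
  Int.emod_lt_of_pos _ (by positivity)

/-- **Blocks at good places.** -/
theorem blocks (b : ℕ) (hb : 2 ≤ b) (α : ℝ) (hα : Irrational α) (n q0 : ℕ) :
    ∃ q, q0 ≤ q ∧ ∀ (x : ℝ) (v : ℤ), {m : ℕ | m < b ^ n ∧ word b n (x + m * α) q = v}.ncard ≤ b + 1 := by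
  classical
  obtain ⟨q, hq, hgood⟩ := exists_good α hα b hb n q0
  refine ⟨q, hq, fun x v => ?_⟩
  have hb0 : (0 : ℝ) < b := by positivity
  set E : Set ℕ := {m : ℕ | m < b ^ n ∧ word b n (x + m * α) q = v} with hE
  set t : ℕ → ℝ := fun m => Int.fract ((x + m * α) * (b : ℝ) ^ q) with ht
  set F : ℕ → ℕ := fun m => ⌊Int.fract (t m * (b : ℝ) ^ n) * (b + 1)⌋₊ with hF
  have hmap : ∀ m ∈ E, F m ∈ {v : ℕ | v < b + 1} := by
    intro m hm
    show ⌊Int.fract (t m * (b : ℝ) ^ n) * (b + 1)⌋₊ < b + 1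
    rw [Nat.floor_lt (by have := Int.fract_nonneg (t m * (b : ℝ) ^ n); positivity)]
    push_cast
    have := Int.fract_lt_one (t m * (b : ℝ) ^ n)
    nlinarith
  have hinj : Set.InjOn F E := by
    have key : ∀ m ∈ E, ∀ m' ∈ E, m < m' → F m ≠ F m' := by
      intro m hm m' hm' hlt h2
      have hB : (0 : ℝ) < (b : ℝ) ^ n := by positivity
      have h3 : ⌊t m * (b : ℝ) ^ n⌋ = ⌊t m' * (b : ℝ) ^ n⌋ := by
        rw [ht]
        simp only
        rw [← word_eq b hb, ← word_eq b hb, hm.2, hm'.2]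
      set f := Int.fract (t m * (b : ℝ) ^ n) with hf
      set f' := Int.fract (t m' * (b : ℝ) ^ n) with hf'
      have h4 : t m' * (b : ℝ) ^ n - t m * (b : ℝ) ^ n = f' - f := by
        rw [hf, hf', Int.fract, Int.fract, h3]
        ring
      have hf0 : 0 ≤ f * (b + 1) := mul_nonneg (Int.fract_nonneg _) (by positivity)
      have hf0' : 0 ≤ f' * (b + 1) := mul_nonneg (Int.fract_nonneg _) (by positivity)
      have h2' : ⌊f * ((b : ℝ) + 1)⌋₊ = ⌊f' * ((b : ℝ) + 1)⌋₊ := h2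
      have h5 : |f' * (b + 1) - f * (b + 1)| < 1 := by
        rw [abs_lt]
        have e1 := Nat.floor_le hf0
        have e2 := Nat.lt_floor_add_one (f * ((b : ℝ) + 1))
        have e3 := Nat.floor_le hf0'
        have e4 := Nat.lt_floor_add_one (f' * ((b : ℝ) + 1))
        have e5 : (⌊f * ((b : ℝ) + 1)⌋₊ : ℝ) = ⌊f' * ((b : ℝ) + 1)⌋₊ := by exact_mod_cast h2'
        constructor <;> linarith
      have h6 := hgood (m' - m) (by omega) (by have := hm'.1; omega)
        (⌊(x + m' * α) * (b : ℝ) ^ q⌋ - ⌊(x + m * α) * (b : ℝ) ^ q⌋)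
      have h7 : (((m' - m : ℕ) : ℝ)) * ((b : ℝ) ^ q * α) -
          ((⌊(x + m' * α) * (b : ℝ) ^ q⌋ - ⌊(x + m * α) * (b : ℝ) ^ q⌋ : ℤ) : ℝ) = t m' - t m := by
        rw [ht, Nat.cast_sub hlt.le]
        simp only [Int.fract]
        push_cast
        ring
      rw [h7] at h6
      have h8 : |t m' - t m| * (b : ℝ) ^ n * (b + 1) < 1 := by
        have e6 : |t m' - t m| * (b : ℝ) ^ n * (b + 1) = |f' * (b + 1) - f * (b + 1)| := by
          rw [← sub_mul, ← h4, ← sub_mul, abs_mul, abs_mul, abs_of_pos hB,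
            abs_of_pos (by positivity : (0 : ℝ) < (b : ℝ) + 1)]
        rw [e6]
        exact h5
      rw [div_le_iff₀ (by positivity)] at h6
      nlinarith
    intro m hm m' hm' heq
    rcases lt_trichotomy m m' with h | h | h
    · exact absurd heq (key m hm m' hm' h)
    · exact h
    · exact absurd heq.symm (key m' hm' m hm h)
  have h := Set.ncard_le_ncard_of_injOn F hmap hinj (Set.finite_lt_nat (b + 1))
  refine h.trans (le_of_eq ?_)
  rw [show {v : ℕ | v < b + 1} = ((Finset.range (b + 1) : Finset ℕ) : Set ℕ) by ext; simp,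
    Set.ncard_coe_finset, Finset.card_range]

/-- the `m` whose blocks are in a finite set -/
lemma blocks_mem (b n : ℕ) (α x : ℝ) (q : ℕ) 
    (h : ∀ (v : ℤ), {m : ℕ | m < b ^ n ∧ word b n (x + m * α) q = v}.ncard ≤ b + 1)
    (A : Finset ℤ) :
    {m : ℕ | m < b ^ n ∧ word b n (x + m * α) q ∈ A}.ncard ≤ (b + 1) * A.card := by
  classical
  have hsub : {m : ℕ | m < b ^ n ∧ word b n (x + m * α) q ∈ A} ⊆
      ⋃ v ∈ A, {m : ℕ | m < b ^ n ∧ word b n (x + m * α) q = v} := by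
    rintro m ⟨hm, hA⟩
    rw [Set.mem_iUnion₂]
    exact ⟨_, hA, hm, rfl⟩
  have hfin : ∀ v : ℤ, {m : ℕ | m < b ^ n ∧ word b n (x + m * α) q = v}.Finite := fun v =>
    (Set.finite_lt_nat (b ^ n)).subset fun m hm => hm.1
  refine (Set.ncard_le_ncard hsub (Set.Finite.biUnion A.finite_toSet fun v _ => hfin v)).trans ?_
  refine (Finset.set_ncard_biUnion_le _ _).trans ?_
  refine (Finset.sum_le_card_nsmul _ _ _ fun v _ => h v).trans (le_of_eq ?_)
  rw [smul_eq_mul, mul_comm]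

/-- the words of `k` digits which stand infinitely often in `y` -/
def often (b k : ℕ) (y : ℝ) : Set ℤ := {v : ℤ | {i : ℕ | word b k y i = v}.Infinite}

lemma often_sub (b : ℕ) (hb : 2 ≤ b) (k : ℕ) (y : ℝ) : often b k y ⊆ (Finset.Ico (0 : ℤ) ((b : ℤ) ^ k) : Set ℤ) := by
  intro v hv
  obtain ⟨i, hi⟩ := hv.nonempty
  rw [Finset.coe_Ico, Set.mem_Ico, ← (hi : word b k y i = v)]
  exact ⟨word_nonneg b hb k y i, word_lt b hb k y i⟩

/-- from some place on only the words of `often` stand -/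
lemma often_ev (b : ℕ) (hb : 2 ≤ b) (k : ℕ) (y : ℝ) : ∃ i0, ∀ i ≥ i0, word b k y i ∈ often b k y := by
  classical
  have h1 : ∀ v : ℤ, ∃ B : ℕ, v ∉ often b k y → ∀ i ≥ B, word b k y i ≠ v := by
    intro v
    by_cases hv : v ∈ often b k y
    · exact ⟨0, fun h => absurd hv h⟩
    · have hf : {i : ℕ | word b k y i = v}.Finite := Set.not_infinite.1 hv
      obtain ⟨B, hB⟩ := hf.bddAbove
      refine ⟨B + 1, fun _ i hi he => ?_⟩
      have := hB he
      omega
  choose B hB using h1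
  refine ⟨(Finset.Ico (0 : ℤ) ((b : ℤ) ^ k)).sup B, fun i hi => ?_⟩
  by_contra hcon
  have hmem : word b k y i ∈ Finset.Ico (0 : ℤ) ((b : ℤ) ^ k) :=
    Finset.mem_Ico.2 ⟨word_nonneg b hb k y i, word_lt b hb k y i⟩
  exact hB _ hcon i ((Finset.le_sup hmem).trans hi) rfl

/-- a block of `k l` digits consists of `l` blocks of `k` digits -/
lemma word_split (b : ℕ) (hb : 2 ≤ b) (k l : ℕ) (y : ℝ) (q : ℕ) :
    word b (k * (l + 1)) y q = word b (k * l) y q * (b : ℤ) ^ k + word b k y (q + k * l) := by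
  have hb0 : (0 : ℝ) < b := by positivity
  have hbk : (0 : ℤ) < (b : ℤ) ^ k := by positivity
  set N := ⌊y * (b : ℝ) ^ (q + k * l + k)⌋ with hN
  have e1 : q + k * (l + 1) = q + k * l + k := by ring
  have e2 : ⌊y * (b : ℝ) ^ (q + k * l)⌋ = N / (b : ℤ) ^ k := by
    have h1 : y * (b : ℝ) ^ (q + k * l) = y * (b : ℝ) ^ (q + k * l + k) / ((b ^ k : ℕ) : ℝ) := by
      push_cast
      rw [pow_add (b : ℝ) (q + k * l) k]
      field_simp
    rw [h1, Int.floor_div_natCast]
    push_cast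
    rfl
  unfold word
  rw [e1, ← hN, e2]
  have e3 : (b : ℤ) ^ (k * (l + 1)) = (b : ℤ) ^ k * (b : ℤ) ^ (k * l) := by
    rw [← pow_add]
    congr 1
    ring
  rw [e3]
  have h1 := Int.emod_add_mul_ediv N ((b : ℤ) ^ k * (b : ℤ) ^ (k * l))
  have h2 := Int.emod_add_mul_ediv N ((b : ℤ) ^ k)
  have h3 := Int.emod_add_mul_ediv (N / (b : ℤ) ^ k) ((b : ℤ) ^ (k * l))
  have h4 : N / ((b : ℤ) ^ k * (b : ℤ) ^ (k * l)) = N / (b : ℤ) ^ k / (b : ℤ) ^ (k * l) :=
    (Int.ediv_ediv_of_nonneg hbk.le).symm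
  rw [h4] at h1
  linear_combination h1 - h2 - (b : ℤ) ^ k * h3

/-- **Few words.** -/
theorem few_words (b : ℕ) (hb : 2 ≤ b) (α : ℝ) (hα : Irrational α) (x : ℝ) (k l P : ℕ)
    (hP : P ≤ b ^ k) :
    {m : ℕ | m < b ^ (k * l) ∧ (often b k (x + m * α)).ncard ≤ P}.ncard ≤
      (b + 1) * (b ^ k).choose P * P ^ l := by
  classical
  set E : Set ℕ := {m : ℕ | m < b ^ (k * l) ∧ (often b k (x + m * α)).ncard ≤ P} with hE
  set I : Finset ℤ := Finset.Ico (0 : ℤ) ((b : ℤ) ^ k) with hI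
  have hIcard : I.card = b ^ k := by
    rw [hI, Int.card_Ico, sub_zero]
    exact_mod_cast Int.toNat_natCast (b ^ k)
  -- a place from which on only frequent words stand
  have h1 : ∀ m : ℕ, ∃ i0, ∀ i ≥ i0, word b k (x + m * α) i ∈ often b k (x + m * α) := fun m =>
    often_ev b hb k _
  choose i0 hi0 using h1
  obtain ⟨q, hq, hblock⟩ := blocks b hb α hα (k * l) ((Finset.range (b ^ (k * l))).sup i0)
  have hq' : ∀ m < b ^ (k * l), i0 m ≤ q := fun m hm =>
    (Finset.le_sup (Finset.mem_range.2 hm)).trans hq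
  -- the blocks over the alphabet `W`
  have hset : ∀ (W : Finset ℤ) (l : ℕ), ∃ A : Finset ℤ, A.card ≤ W.card ^ l ∧ ∀ y : ℝ,
      (∀ i < l, word b k y (q + k * i) ∈ W) → word b (k * l) y q ∈ A := by
    intro W l
    induction l with
    | zero =>
      refine ⟨{0}, by simp, fun y _ => ?_⟩
      rw [Finset.mem_singleton, word, mul_zero, pow_zero, Int.emod_one]
    | succ l ih =>
      obtain ⟨A, hA, hAy⟩ := ih
      refine ⟨(A ×ˢ W).image fun u => u.1 * (b : ℤ) ^ k + u.2, ?_, fun y hy => ?_⟩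
      · refine Finset.card_image_le.trans ?_
        rw [Finset.card_product, pow_succ]
        exact Nat.mul_le_mul_right _ hA
      · rw [Finset.mem_image]
        refine ⟨(word b (k * l) y q, word b k y (q + k * l)), ?_, (word_split b hb k l y q).symm⟩
        rw [Finset.mem_product]
        exact ⟨hAy y fun i hi => hy i (by omega), hy l (by omega)⟩
  have hsub : E ⊆ ⋃ W ∈ Finset.powersetCard P I, {m : ℕ | m < b ^ (k * l) ∧
      ∀ i < l, word b k (x + m * α) (q + k * i) ∈ W} := by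
    rintro m ⟨hm, hc⟩
    have hfin : (often b k (x + m * α)).Finite := (Finset.finite_toSet I).subset (often_sub b hb k _)
    obtain ⟨W, hW1, hW2⟩ : ∃ W : Finset ℤ, hfin.toFinset ⊆ W ∧ W ∈ Finset.powersetCard P I := by
      have h2 : hfin.toFinset ⊆ I := by
        intro v hv
        rw [Set.Finite.mem_toFinset] at hv
        exact_mod_cast often_sub b hb k _ hv
      have h3 : hfin.toFinset.card ≤ P := by
        rw [← Set.ncard_eq_toFinset_card _ hfin]
        exact hc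
      obtain ⟨W, h4, h5, h6⟩ := Finset.exists_subsuperset_card_eq h2 h3 (by rw [hIcard]; exact hP)
      exact ⟨W, h4, Finset.mem_powersetCard.2 ⟨h5, h6⟩⟩
    rw [Set.mem_iUnion₂]
    refine ⟨W, hW2, hm, fun i _ => hW1 ?_⟩
    rw [Set.Finite.mem_toFinset]
    exact hi0 m _ ((hq' m hm).trans (Nat.le_add_right _ _))
  have hone : ∀ W ∈ Finset.powersetCard P I, {m : ℕ | m < b ^ (k * l) ∧
      ∀ i < l, word b k (x + m * α) (q + k * i) ∈ W}.ncard ≤ (b + 1) * P ^ l := by
    intro W hW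
    obtain ⟨A, hA, hAy⟩ := hset W l
    rw [Finset.mem_powersetCard] at hW
    rw [hW.2] at hA
    refine (Set.ncard_le_ncard (t := {m : ℕ | m < b ^ (k * l) ∧ word b (k * l) (x + m * α) q ∈ A})
      (fun m hm => ⟨hm.1, hAy _ hm.2⟩) ((Set.finite_lt_nat _).subset fun m hm => hm.1)).trans ?_
    exact (blocks_mem b (k * l) α x q (hblock x) A).trans (Nat.mul_le_mul_left _ hA)
  have hfin : ∀ W : Finset ℤ, {m : ℕ | m < b ^ (k * l) ∧
      ∀ i < l, word b k (x + m * α) (q + k * i) ∈ W}.Finite := fun W =>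
    (Set.finite_lt_nat _).subset fun m hm => hm.1
  refine (Set.ncard_le_ncard hsub (Set.Finite.biUnion (Finset.finite_toSet _) fun W _ => hfin W)).trans ?_
  refine (Finset.set_ncard_biUnion_le _ _).trans ?_
  refine (Finset.sum_le_card_nsmul _ _ _ hone).trans (le_of_eq ?_)
  rw [Finset.card_powersetCard, hIcard, smul_eq_mul]
  ring

/-- the form with an exponent -/
theorem few_words_pow (b : ℕ) (hb : 2 ≤ b) (α : ℝ) (hα : Irrational α) (x : ℝ) (k P : ℕ)
    (hk : 1 ≤ k) (hP0 : 1 ≤ P) (hP : P ≤ b ^ k) (M : ℕ) (hM : 1 ≤ M) :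
    (({m : ℕ | m < M ∧ (often b k (x + m * α)).ncard ≤ P}.ncard : ℕ) : ℝ) ≤
      (b + 1) * (b ^ k).choose P * P * (M : ℝ) ^ (Real.log P / (k * Real.log b)) := by
  classical
  have hbR : (2 : ℝ) ≤ b := by exact_mod_cast hb
  have hPR : (1 : ℝ) ≤ P := by exact_mod_cast hP0
  have hMR : (1 : ℝ) ≤ M := by exact_mod_cast hM
  have hkR : (1 : ℝ) ≤ k := by exact_mod_cast hk
  have hlogb : 0 < Real.log b := Real.log_pos (by linarith)
  have hlogP : 0 ≤ Real.log P := Real.log_nonneg hPR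
  -- the number of blocks
  obtain ⟨l, hl1, hl2⟩ : ∃ l : ℕ, M ≤ b ^ (k * l) ∧ (P : ℝ) ^ l ≤
      P * (M : ℝ) ^ (Real.log P / (k * Real.log b)) := by
    have hex : ∃ l : ℕ, M ≤ b ^ (k * l) := by
      refine ⟨M, (Nat.lt_pow_self (show 1 < b by omega)).le.trans ?_⟩
      exact Nat.pow_le_pow_right (by omega) (Nat.le_mul_of_pos_left _ (by omega))
    refine ⟨Nat.find hex, Nat.find_spec hex, ?_⟩
    have h1M : (1 : ℝ) ≤ (M : ℝ) ^ (Real.log P / (k * Real.log b)) :=
      Real.one_le_rpow hMR (by positivity)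
    rcases Nat.eq_zero_or_pos (Nat.find hex) with h0 | h0
    · rw [h0, pow_zero]
      nlinarith
    · obtain ⟨r, hr⟩ : ∃ r, Nat.find hex = r + 1 := ⟨Nat.find hex - 1, by omega⟩
      have h2 := Nat.find_min hex (show r < Nat.find hex by omega)
      rw [not_le] at h2
      have h3 : ((b : ℝ) ^ (k * r)) ≤ M := by exact_mod_cast h2.le
      rw [hr, pow_succ, mul_comm]
      refine mul_le_mul_of_nonneg_left ?_ (by positivity)
      have e3 : (P : ℝ) ^ r = ((b : ℝ) ^ (k * r)) ^ (Real.log P / (k * Real.log b)) := by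
        rw [Real.rpow_def_of_pos (by positivity : (0 : ℝ) < (b : ℝ) ^ (k * r)), Real.log_pow,
          ← Real.exp_log (by positivity : (0 : ℝ) < (P : ℝ) ^ r), Real.log_pow]
        congr 1
        push_cast
        field_simp
      rw [e3]
      exact Real.rpow_le_rpow (by positivity) h3 (by positivity)
  have h1 := few_words b hb α hα x k l P hP
  have h2 : {m : ℕ | m < M ∧ (often b k (x + m * α)).ncard ≤ P}.ncard ≤
      {m : ℕ | m < b ^ (k * l) ∧ (often b k (x + m * α)).ncard ≤ P}.ncard :=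
    Set.ncard_le_ncard (fun m hm => ⟨hm.1.trans_le hl1, hm.2⟩)
      ((Set.finite_lt_nat _).subset fun m hm => hm.1)
  have h3 : (({m : ℕ | m < M ∧ (often b k (x + m * α)).ncard ≤ P}.ncard : ℕ) : ℝ) ≤
      (b + 1) * (b ^ k).choose P * (P : ℝ) ^ l := by exact_mod_cast h2.trans h1
  refine h3.trans ?_
  rw [mul_assoc _ (P : ℝ)]
  exact mul_le_mul_of_nonneg_left hl2 (by positivity)

end Pool.Agent.R544.EM
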