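import Pool.Agent.R544.EM.Block

/-!
The multiples of the Liouville number in which few words stand infinitely often.
-/

set_option autoImplicit false

namespace Pool.Agent.R544.EM

open Finset
open Nat (factorial)
open scoped Nat

/-- the numbers with `n` digits in base `b`, all of them below `c` -/
def small (b c n : ℕ) : Finset ℕ := (Finset.range (b ^ n)).filter fun m => ∀ j < n, m / b ^ j % b < c

lemma mem_small (b c n m : ℕ) : m ∈ small b c n ↔ m < b ^ n ∧ ∀ j < n, m / b ^ j % b < c := by
  rw [small, Finset.mem_filter, Finset.mem_range]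

lemma card_small (b : ℕ) (hb : 2 ≤ b) (c : ℕ) (hc : c ≤ b) (n : ℕ) : (small b c n).card = c ^ n := by
  classical
  induction n with
  | zero =>
    have : small b c 0 = {0} := by
      ext m
      rw [mem_small]
      simp
    rw [this]
    simp
  | succ n ih =>
    have e : small b c (n + 1) = (small b c n ×ˢ Finset.range c).image fun u => u.1 * b + u.2 := by
      ext m
      rw [Finset.mem_image, mem_small]
      constructor
      · rintro ⟨h1, h2⟩
        refine ⟨(m / b, m % b), ?_, Nat.div_add_mod' m b⟩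
        rw [Finset.mem_product, mem_small, Finset.mem_range]
        refine ⟨⟨?_, fun j hj => ?_⟩, ?_⟩
        · show m / b < b ^ n
          rw [Nat.div_lt_iff_lt_mul (by omega), ← pow_succ]
          exact h1
        · show m / b / b ^ j % b < c
          rw [Nat.div_div_eq_div_mul, ← pow_succ']
          exact h2 (j + 1) (by omega)
        · have := h2 0 (by omega)
          simpa using this
      · rintro ⟨⟨u, d⟩, hu, rfl⟩
        rw [Finset.mem_product, mem_small, Finset.mem_range] at hu
        obtain ⟨⟨h1, h2⟩, h3⟩ := hu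
        simp only at h1 h2 h3 ⊢
        have hdb : d < b := by omega
        refine ⟨?_, fun j hj => ?_⟩
        · calc u * b + d < u * b + b := by omega
            _ = (u + 1) * b := by ring
            _ ≤ b ^ n * b := Nat.mul_le_mul_right _ h1
            _ = b ^ (n + 1) := (pow_succ b n).symm
        · rcases Nat.eq_zero_or_pos j with rfl | hj0
          · rw [pow_zero, Nat.div_one, mul_comm u b, Nat.mul_add_mod, Nat.mod_eq_of_lt hdb]
            exact h3
          · obtain ⟨i, rfl⟩ : ∃ i, j = i + 1 := ⟨j - 1, by omega⟩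
            rw [pow_succ', ← Nat.div_div_eq_div_mul]
            have : (u * b + d) / b = u := by
              rw [mul_comm, Nat.mul_add_div (by omega), Nat.div_eq_of_lt hdb, add_zero]
            rw [this]
            exact h2 i (by omega)
    rw [e, Finset.card_image_of_injOn, Finset.card_product, ih, Finset.card_range, pow_succ]
    rintro ⟨u, d⟩ hu ⟨u', d'⟩ hu' he
    rw [Finset.mem_coe, Finset.mem_product, Finset.mem_range] at hu hu'
    have he' : u * b + d = u' * b + d' := he
    have hd : d < b := lt_of_lt_of_le hu.2 hc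
    have hd' : d' < b := lt_of_lt_of_le hu'.2 hc
    have h1 : u = u' := by
      have : (u * b + d) / b = (u' * b + d') / b := by rw [he']
      rwa [mul_comm u, mul_comm u', Nat.mul_add_div (by omega), Nat.mul_add_div (by omega),
        Nat.div_eq_of_lt hd, Nat.div_eq_of_lt hd', add_zero, add_zero] at this
    subst h1
    rw [Prod.mk.injEq]
    exact ⟨rfl, by omega⟩

/-- the digits of the words -/
lemma word_digit (b : ℕ) (hb : 2 ≤ b) (k : ℕ) (y : ℝ) (i j : ℕ) (hj : j < k) :
    word b k y i / (b : ℤ) ^ j % b = digit b y (i + (k - j)) := by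
  have hb0 : (0 : ℝ) < b := by positivity
  set N := ⌊y * (b : ℝ) ^ (i + k)⌋ with hN
  have e2 : ⌊y * (b : ℝ) ^ (i + (k - j))⌋ = N / (b : ℤ) ^ j := by
    have h1 : y * (b : ℝ) ^ (i + (k - j)) = y * (b : ℝ) ^ (i + k) / ((b ^ j : ℕ) : ℝ) := by
      push_cast
      rw [show i + k = i + (k - j) + j by omega, pow_add (b : ℝ) (i + (k - j)) j]
      field_simp
    rw [h1, Int.floor_div_natCast]
    push_cast
    rfl
  unfold word digit
  rw [e2, ← hN]
  have hbj : (0 : ℤ) < (b : ℤ) ^ j := by positivity
  have e3 : (b : ℤ) ^ k = (b : ℤ) ^ j * (b * (b : ℤ) ^ (k - j - 1)) := by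
    rw [← pow_succ', ← pow_add]
    congr 1
    omega
  have h1 := Int.emod_add_mul_ediv N ((b : ℤ) ^ k)
  have h2 : N / (b : ℤ) ^ j = N % (b : ℤ) ^ k / (b : ℤ) ^ j + b * ((b : ℤ) ^ (k - j - 1) * (N / (b : ℤ) ^ k)) := by
    have e4 : N = N % (b : ℤ) ^ k + (b : ℤ) ^ j * (b * ((b : ℤ) ^ (k - j - 1) * (N / (b : ℤ) ^ k))) := by
      have h5 : (b : ℤ) ^ k * (N / (b : ℤ) ^ k) =
          (b : ℤ) ^ j * (b * (b : ℤ) ^ (k - j - 1)) * (N / (b : ℤ) ^ k) := by rw [← e3]
      linear_combination -h1 + h5
    conv_lhs => rw [e4]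
    rw [Int.add_mul_ediv_left _ _ hbj.ne']
  rw [h2, Int.add_mul_emod_self_left]

theorem few_lower (b : ℕ) (hb : 2 ≤ b) (c : ℕ) (hc1 : 1 ≤ c) (hc : c ≤ b) (k n : ℕ) :
    c ^ n ≤ {m : ℕ | m < b ^ n ∧ (often b k (m * liouvilleNumber b)).ncard ≤ c ^ k}.ncard := by
  classical
  rw [← card_small b hb c hc n, ← Set.ncard_coe_finset]
  refine Set.ncard_le_ncard (fun m hm => ?_) ((Set.finite_lt_nat _).subset fun m hm => hm.1)
  rw [Finset.mem_coe, mem_small] at hm
  refine ⟨hm.1, ?_⟩
  rw [← card_small b hb c hc k]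
  have hsub : often b k (m * liouvilleNumber b) ⊆
      (((small b c k).image fun v : ℕ => (v : ℤ) : Finset ℤ) : Set ℤ) := by
    intro v hv
    -- a place beyond `(n + 2)!`
    have hv' : {i : ℕ | word b k (m * liouvilleNumber b) i = v}.Infinite := hv
    obtain ⟨i, hi, hlt⟩ := hv'.exists_gt ((n + 2)!)
    have hi' : word b k (m * liouvilleNumber b) i = v := hi
    have h0 : 0 ≤ v := by rw [← hi']; exact word_nonneg b hb k _ i
    have h1 : v < (b : ℤ) ^ k := by rw [← hi']; exact word_lt b hb k _ i
    obtain ⟨u, rfl⟩ := Int.eq_ofNat_of_zero_le h0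
    rw [Finset.mem_coe, Finset.mem_image]
    refine ⟨u, ?_, rfl⟩
    rw [mem_small]
    refine ⟨by exact_mod_cast h1, fun j hj => ?_⟩
    have h2 := word_digit b hb k (m * liouvilleNumber b) i j hj
    rw [hi'] at h2
    set i' := i + (k - j) with hi'def
    obtain ⟨r, hr, hr'⟩ : ∃ r, r ! < i' ∧ i' ≤ (r + 1)! := by
      have hex : ∃ r, i' ≤ (r + 1)! := ⟨i', (Nat.self_le_factorial _).trans
        (Nat.factorial_le (by omega))⟩
      refine ⟨Nat.find hex, ?_, Nat.find_spec hex⟩
      rcases Nat.eq_zero_or_pos (Nat.find hex) with h | h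
      · rw [h]
        have : 2 ≤ (n + 2)! := by
          calc 2 = 2 ! := rfl
            _ ≤ _ := Nat.factorial_le (by omega)
        simp
        omega
      · have := Nat.find_min hex (Nat.sub_lt h one_pos)
        rw [Nat.sub_add_cancel (show 1 ≤ Nat.find hex from h)] at this
        omega
    have hrn : n + 2 ≤ r := by
      by_contra hcon
      have : (r + 1)! ≤ (n + 2)! := Nat.factorial_le (by omega)
      omega
    rw [digit_liou b hb n m hm.1 r i' (by omega) (by omega) hr hr'] at h2
    have h3 : u / b ^ j % b = m / b ^ ((r + 1)! - i') % b := by exact_mod_cast h2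
    rw [h3]
    by_cases hK : (r + 1)! - i' < n
    · exact hm.2 _ hK
    · rw [Nat.div_eq_of_lt (hm.1.trans_le (Nat.pow_le_pow_right (by omega) (not_lt.1 hK))), Nat.zero_mod]
      exact hc1
  refine (Set.ncard_le_ncard hsub (Finset.finite_toSet _)).trans ?_
  rw [Set.ncard_coe_finset]
  exact Finset.card_image_le

end Pool.Agent.R544.EM
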