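import Pool.Agent.R544.EM.Up

/-!
Words without a given word: counting, and the multiples of the Liouville number.
-/

set_option autoImplicit false

namespace Pool.Agent.R544.EM

open Finset
open Nat (factorial)
open scoped Nat

lemma exists_digits (b : ℕ) (hb : 2 ≤ b) (k : ℕ) (w : ℕ → ℕ) (hw : ∀ j < k, w j < b) :
    ∃ v < b ^ k, ∀ j < k, v / b ^ j % b = w j := by
  induction k with
  | zero => exact ⟨0, by simp, fun j hj => absurd hj (by omega)⟩
  | succ k ih =>
    obtain ⟨v, hv, h⟩ := ih fun j hj => hw j (by omega)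
    refine ⟨v + b ^ k * w k, ?_, fun j hj => ?_⟩
    · have := hw k (by omega)
      calc v + b ^ k * w k < b ^ k + b ^ k * w k := by omega
        _ = b ^ k * (w k + 1) := by ring
        _ ≤ b ^ k * b := Nat.mul_le_mul_left _ this
        _ = b ^ (k + 1) := (pow_succ b k).symm
    · rcases Nat.lt_succ_iff_lt_or_eq.1 hj with hj' | rfl
      · have e1 : b ^ k = b ^ j * (b * b ^ (k - j - 1)) := by
          rw [← mul_assoc, ← pow_succ, ← pow_add]
          congr 1
          omega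
        rw [e1, mul_assoc, Nat.add_mul_div_left _ _ (by positivity), mul_assoc, Nat.add_mul_mod_self_left]
        exact h j hj'
      · rw [Nat.add_mul_div_left _ _ (by positivity), Nat.div_eq_of_lt hv, zero_add,
          Nat.mod_eq_of_lt (hw j (by omega))]

lemma mod_digit (b u k j : ℕ) (hj : j < k) : u % b ^ k / b ^ j % b = u / b ^ j % b := by
  rw [show b ^ k = b ^ j * b ^ (k - j) by rw [← pow_add]; congr 1; omega, Nat.mod_mul_right_div_self,
    Nat.mod_mod_of_dvd _ (dvd_pow_self b (by omega))]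

lemma av_finite (b k : ℕ) (w : ℕ → ℕ) (n : ℕ) : {u : ℕ | u < b ^ n ∧ Avoids b k w n u}.Finite :=
  (Set.finite_lt_nat (b ^ n)).subset fun _ hu => hu.1

/-- one more block of `k` digits -/
lemma av_step (b : ℕ) (hb : 2 ≤ b) (k : ℕ) (w : ℕ → ℕ) (hw : ∀ j < k, w j < b) (n : ℕ) :
    av b k w (n + k) ≤ av b k w n * (b ^ k - 1) := by
  classical
  obtain ⟨v, hv, hvd⟩ := exists_digits b hb k (fun j => w (k - 1 - j)) fun j hj => hw _ (by omega)
  have hfin : ({u : ℕ | u < b ^ n ∧ Avoids b k w n u} ×ˢ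
      (((Finset.range (b ^ k)).erase v : Finset ℕ) : Set ℕ)).Finite :=
    (av_finite b k w n).prod (Finset.finite_toSet _)
  have h := Set.ncard_le_ncard_of_injOn (s := {u : ℕ | u < b ^ (n + k) ∧ Avoids b k w (n + k) u})
    (fun u => (u / b ^ k, u % b ^ k)) (t := {u : ℕ | u < b ^ n ∧ Avoids b k w n u} ×ˢ
      (((Finset.range (b ^ k)).erase v : Finset ℕ) : Set ℕ)) ?_ ?_ hfin
  · refine h.trans ?_
    rw [Set.ncard_prod, Set.ncard_coe_finset, Finset.card_erase_of_mem (Finset.mem_range.2 hv),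
      Finset.card_range, av]
  · rintro u ⟨hu, ha⟩
    refine ⟨⟨?_, fun e he => ?_⟩, ?_⟩
    · show u / b ^ k < b ^ n
      rw [Nat.div_lt_iff_lt_mul (by positivity), ← pow_add]
      exact hu
    · obtain ⟨s, hs, h1⟩ := ha (e + k) (by omega)
      refine ⟨s, hs, ?_⟩
      show u / b ^ k / b ^ (e + (k - 1 - s)) % b ≠ w s
      rw [Nat.div_div_eq_div_mul, ← pow_add, show k + (e + (k - 1 - s)) = e + k + (k - 1 - s) by ring]
      exact h1
    · show u % b ^ k ∈ (((Finset.range (b ^ k)).erase v : Finset ℕ) : Set ℕ)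
      rw [Finset.coe_erase, Finset.coe_range]
      refine ⟨Nat.mod_lt _ (by positivity), fun h1 => ?_⟩
      have h1' : u % b ^ k = v := h1
      obtain ⟨s, hs, h2⟩ := ha 0 (by omega)
      apply h2
      rw [zero_add, ← mod_digit b u k _ (by omega), h1', hvd _ (by omega)]
      congr 1
      omega
  · intro u _ u' _ h1
    have h2 : u / b ^ k = u' / b ^ k ∧ u % b ^ k = u' % b ^ k := Prod.mk.injEq _ _ _ _ |>.mp h1
    rw [← Nat.div_add_mod u (b ^ k), ← Nat.div_add_mod u' (b ^ k), h2.1, h2.2]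

lemma av_pow (b : ℕ) (hb : 2 ≤ b) (k : ℕ) (w : ℕ → ℕ) (hw : ∀ j < k, w j < b) (l : ℕ) :
    av b k w (k * l) ≤ (b ^ k - 1) ^ l := by
  induction l with
  | zero =>
    rw [mul_zero, pow_zero, av]
    refine (Set.ncard_le_ncard (t := {0}) (fun u hu => ?_) (Set.finite_singleton 0)).trans
      (Set.ncard_singleton 0).le
    have : u < b ^ 0 := hu.1
    simp at this
    exact this
  | succ l ih =>
    rw [show k * (l + 1) = k * l + k by ring, pow_succ]
    exact (av_step b hb k w hw (k * l)).trans (Nat.mul_le_mul_right _ ih)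

/-- the digits of `m` times the Liouville number, from some place on -/
lemma digit_liou (b : ℕ) (hb : 2 ≤ b) (n m : ℕ) (hm : m < b ^ n) (j i : ℕ) (hnj : n ≤ j) (hj0 : 1 ≤ j)
    (hj : j ! < i) (hj' : i ≤ (j + 1)!) :
    digit b (m * liouvilleNumber b) i = ((m / b ^ ((j + 1)! - i) % b : ℕ) : ℤ) := by
  have hbR : (2 : ℝ) ≤ b := by exact_mod_cast hb
  have hb1 : (1 : ℝ) < b := by linarith
  set K := (j + 1)! - i with hK
  set S : ℕ := ∑ l ∈ Finset.range (j + 1), b ^ (i - l !) with hS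
  have hfac : ∀ l ∈ Finset.range (j + 1), l ! < i := fun l hl =>
    (Nat.factorial_le (Nat.lt_succ_iff.1 (Finset.mem_range.1 hl))).trans_lt hj
  have hpart : LiouvilleNumber.partialSum b j * (b : ℝ) ^ i = (S : ℝ) := by
    rw [LiouvilleNumber.partialSum, Finset.sum_mul, hS]
    push_cast
    refine Finset.sum_congr rfl fun l hl => ?_
    rw [pow_sub₀ (b : ℝ) (by positivity) (hfac l hl).le]
    ring
  have hsum : liouvilleNumber (b : ℝ) = LiouvilleNumber.partialSum b j + 1 / (b : ℝ) ^ (j + 1)! +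
      LiouvilleNumber.remainder b (j + 1) := by
    rw [← LiouvilleNumber.partialSum_add_remainder hb1 (j + 1), LiouvilleNumber.partialSum_succ]
  set ε : ℝ := m * LiouvilleNumber.remainder b (j + 1) * (b : ℝ) ^ i with hε
  have hrem := LiouvilleNumber.remainder_pos hb1 (j + 1)
  have hε0 : 0 ≤ ε := by positivity
  have hε1 : ε < 1 / (b : ℝ) ^ K := by
    have h1 := LiouvilleNumber.remainder_lt' (j + 1) hb1
    have h2 : LiouvilleNumber.remainder b (j + 1) ≤ 2 / (b : ℝ) ^ (j + 2)! := by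
      refine h1.le.trans ?_
      rw [show j + 1 + 1 = j + 2 by ring, ← mul_one_div (2 : ℝ)]
      gcongr
      rw [inv_le_comm₀ (by rw [sub_pos, div_lt_one (by linarith)]; exact hb1) (by norm_num)]
      have : 1 / (b : ℝ) ≤ 1 / 2 := one_div_le_one_div_of_le (by norm_num) hbR
      linarith
    have h3 : (j + 2)! = (j + 1)! + (j + 1) * (j + 1)! := by
      rw [show j + 2 = (j + 1) + 1 by ring, Nat.factorial_succ (j + 1)]
      ring
    have h4 : n + 1 ≤ (j + 1) * (j + 1)! := by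
      have : 1 ≤ (j + 1)! := Nat.factorial_pos _
      nlinarith
    have hWR : (m : ℝ) < (b : ℝ) ^ n := by exact_mod_cast hm
    have h6 : ε ≤ m * (2 / (b : ℝ) ^ (j + 2)!) * (b : ℝ) ^ i := by
      rw [hε]
      gcongr
    refine h6.trans_lt ?_
    rw [lt_div_iff₀ (by positivity)]
    have h7 : (m : ℝ) * (2 / (b : ℝ) ^ (j + 2)!) * (b : ℝ) ^ i * (b : ℝ) ^ K =
        m * 2 / (b : ℝ) ^ ((j + 1) * (j + 1)!) := by
      have h8 : (b : ℝ) ^ i * (b : ℝ) ^ K = (b : ℝ) ^ (j + 1)! := by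
        rw [← pow_add]
        congr 1
        omega
      rw [h3, pow_add, mul_assoc, h8]
      field_simp
    rw [h7, div_lt_one (by positivity)]
    calc (m : ℝ) * 2 < (b : ℝ) ^ n * b := by
          have : (0 : ℝ) < (b : ℝ) ^ n := by positivity
          nlinarith
      _ = (b : ℝ) ^ (n + 1) := by rw [pow_succ]
      _ ≤ (b : ℝ) ^ ((j + 1) * (j + 1)!) := pow_le_pow_right₀ hb1.le h4
  have hdecomp : (m : ℝ) * liouvilleNumber b * (b : ℝ) ^ i = (m * S : ℕ) + (m / (b : ℝ) ^ K + ε) := by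
    rw [hsum, hε]
    push_cast
    rw [← hpart]
    have h9 : (1 : ℝ) / (b : ℝ) ^ (j + 1)! * (b : ℝ) ^ i = 1 / (b : ℝ) ^ K := by
      rw [div_mul_eq_mul_div, one_mul, div_eq_div_iff (by positivity) (by positivity), one_mul, ← pow_add]
      congr 1
      omega
    have h10 : (m : ℝ) / (b : ℝ) ^ K = m * (1 / (b : ℝ) ^ (j + 1)! * (b : ℝ) ^ i) := by
      rw [h9]; ring
    rw [h10]
    ring
  have hfloor : ⌊(m : ℝ) / (b : ℝ) ^ K + ε⌋ = ((m / b ^ K : ℕ) : ℤ) := by
    rw [Int.floor_eq_iff]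
    have hp : (0 : ℝ) < (b : ℝ) ^ K := by positivity
    constructor
    · have h1 : ((m / b ^ K : ℕ) : ℝ) ≤ (m : ℝ) / ((b ^ K : ℕ) : ℝ) := Nat.cast_div_le
      rw [Int.cast_natCast]
      push_cast at h1
      linarith
    · have h1 : m + 1 ≤ (m / b ^ K + 1) * b ^ K := by
        have := Nat.lt_div_mul_add (a := m) (b := b ^ K) (by positivity)
        nlinarith
      have h2 : ((m : ℝ) + 1) ≤ ((m / b ^ K : ℕ) + 1) * (b : ℝ) ^ K := by exact_mod_cast h1
      have h3 : (m : ℝ) / (b : ℝ) ^ K + 1 / (b : ℝ) ^ K ≤ ((m / b ^ K : ℕ) : ℝ) + 1 := by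
        rw [← add_div, div_le_iff₀ hp]
        exact h2
      rw [Int.cast_natCast]
      linarith
  have hdvd : b ∣ S := by
    refine Finset.dvd_sum fun l hl => dvd_pow_self b ?_
    have := hfac l hl
    omega
  unfold digit
  rw [hdecomp, show (((m * S : ℕ) : ℝ)) = (((m * S : ℕ) : ℤ) : ℝ) by push_cast; ring,
    Int.floor_intCast_add, hfloor]
  have h11 : (b : ℤ) ∣ ((m * S : ℕ) : ℤ) := by exact_mod_cast hdvd.mul_left m
  rw [Int.add_emod, Int.emod_eq_zero_of_dvd h11, zero_add, Int.emod_emod]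
  push_cast
  rfl

/-- **Lower bound.** -/
theorem lower (b : ℕ) (hb : 2 ≤ b) (k : ℕ) (hk : 1 ≤ k) (w : ℕ → ℕ) (h0 : w 0 ≠ 0)
    (h1 : w (k - 1) ≠ 0) (n : ℕ) :
    av b k w n ≤ {m : ℕ | m < b ^ n ∧
      {i : ℕ | Stands b k w (0 + m * liouvilleNumber b) i}.Finite}.ncard := by
  refine Set.ncard_le_ncard (fun m hm => ⟨hm.1, ?_⟩)
    ((Set.finite_lt_nat (b ^ n)).subset fun m hm => hm.1)
  refine (Set.finite_lt_nat ((n + k + 2)!)).subset fun i hi => ?_
  by_contra hlt
  have hlt' : (n + k + 2)! ≤ i := not_lt.1 hlt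
  have hst : ∀ s < k, digit b (m * liouvilleNumber b) (i + s + 1) = (w s : ℤ) := by
    intro s hs
    have := hi s hs
    rwa [zero_add] at this
  -- `j! < i + 1 ≤ (j + 1)!`
  obtain ⟨j, hj, hj'⟩ : ∃ j, j ! < i + 1 ∧ i + 1 ≤ (j + 1)! := by
    have hex : ∃ k, i + 1 ≤ (k + 1)! := ⟨i, Nat.self_le_factorial _⟩
    classical
    refine ⟨Nat.find hex, ?_, Nat.find_spec hex⟩
    rcases Nat.eq_zero_or_pos (Nat.find hex) with h | h
    · rw [h]
      have : 2 ≤ (n + k + 2)! := by
        calc 2 = 2 ! := rfl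
          _ ≤ _ := Nat.factorial_le (by omega)
      simp
      omega
    · have := Nat.find_min hex (Nat.sub_lt h one_pos)
      rw [Nat.sub_add_cancel (show 1 ≤ Nat.find hex from h)] at this
      omega
  have hjb : n + k + 2 ≤ j := by
    by_contra hcon
    have : (j + 1)! ≤ (n + k + 2)! := Nat.factorial_le (by omega)
    omega
  have hzero : ∀ K, n ≤ K → m / b ^ K % b = 0 := by
    intro K hK
    rw [Nat.div_eq_of_lt (hm.1.trans_le (Nat.pow_le_pow_right (by omega) hK)), Nat.zero_mod]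
  set K := (j + 1)! - (i + 1) with hK
  have hd0 := digit_liou b hb n m hm.1 j (i + 1) (by omega) (by omega) hj hj'
  have hs0 := hst 0 (by omega)
  rw [add_zero, hd0] at hs0
  have hKn : K < n := by
    by_contra hcon
    rw [hzero _ (not_lt.1 hcon)] at hs0
    exact h0 (by exact_mod_cast hs0.symm)
  by_cases hc : i + k ≤ (j + 1)!
  · obtain ⟨s, hs, h2⟩ := hm.2 (K - (k - 1)) (by omega)
    apply h2
    have h3 := digit_liou b hb n m hm.1 j (i + s + 1) (by omega) (by omega) (by omega) (by omega)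
    have h4 := hst s hs
    rw [h3] at h4
    have h5 : (j + 1)! - (i + s + 1) = K - (k - 1) + (k - 1 - s) := by omega
    rw [h5] at h4
    exact_mod_cast h4
  · have hf : (j + 1 + 1)! = (j + 1)! + (j + 1) * (j + 1)! := by
      rw [Nat.factorial_succ (j + 1)]
      ring
    have hf1 : n + k ≤ (j + 1) * (j + 1)! := by
      have : 1 ≤ (j + 1)! := Nat.factorial_pos _
      nlinarith
    have h3 := digit_liou b hb n m hm.1 (j + 1) (i + (k - 1) + 1) (by omega) (by omega) (by omega)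
      (by omega)
    have h4 := hst (k - 1) (by omega)
    rw [h3, hzero _ (by omega)] at h4
    exact h1 (by exact_mod_cast h4.symm)

theorem irrational_liou (b : ℕ) (hb : 2 ≤ b) : Irrational (liouvilleNumber b) :=
  (liouville_liouvilleNumber hb).irrational

end Pool.Agent.R544.EM
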