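import Mathlib

/-!
Multiples of an irrational number: the number of the `m < b ^ n` for which a given word of digits
stands only finitely often in the base `b` expansion of `x + m α`.
-/

set_option autoImplicit false

namespace Pool.Agent.R544.EM

open Finset

/-- For every irrational `α` the number `b ^ k α` is badly approximable on the scale `b ^ n`, for
arbitrarily large `k`. -/
theorem exists_good (α : ℝ) (hα : Irrational α) (b : ℕ) (hb : 2 ≤ b) (n k0 : ℕ) :
    ∃ k, k0 ≤ k ∧ ∀ r : ℕ, 0 < r → r < b ^ n → ∀ p : ℤ,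
      1 / (((b : ℝ) + 1) * (b : ℝ) ^ n) ≤ |(r : ℝ) * ((b : ℝ) ^ k * α) - p| := by
  by_contra hcon
  push Not at hcon
  have hbR : (2 : ℝ) ≤ b := by exact_mod_cast hb
  have hB : (0 : ℝ) < (b : ℝ) ^ n := by positivity
  -- choose approximations
  have h1 : ∀ l : ℕ, ∃ r : ℕ, ∃ p : ℤ, 0 < r ∧ r < b ^ n ∧
      |(r : ℝ) * ((b : ℝ) ^ (k0 + l) * α) - p| < 1 / (((b : ℝ) + 1) * (b : ℝ) ^ n) := by
    intro l
    obtain ⟨r, h0, h2, p, h3⟩ := hcon (k0 + l) (by omega)
    exact ⟨r, p, h0, h2, h3⟩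
  choose r p hr0 hrn hrp using h1
  set δ : ℝ := 1 / (((b : ℝ) + 1) * (b : ℝ) ^ n) with hδ
  have hδ0 : 0 < δ := by positivity
  have hδ1 : δ < 1 := by
    rw [hδ, div_lt_one (by positivity)]
    have : (1 : ℝ) ≤ (b : ℝ) ^ n := one_le_pow₀ (by linarith)
    nlinarith
  -- the quotients are multiplied by `b`
  have hstep : ∀ l, (p (l + 1) : ℝ) / r (l + 1) = b * (p l / r l) := by
    intro l
    have ha : (0 : ℝ) < r l := by exact_mod_cast hr0 l
    have hc : (0 : ℝ) < r (l + 1) := by exact_mod_cast hr0 (l + 1)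
    have ha' : (r l : ℝ) < (b : ℝ) ^ n := by exact_mod_cast hrn l
    have hc' : (r (l + 1) : ℝ) < (b : ℝ) ^ n := by exact_mod_cast hrn (l + 1)
    set e := (r l : ℝ) * ((b : ℝ) ^ (k0 + l) * α) - p l with he
    set e' := (r (l + 1) : ℝ) * ((b : ℝ) ^ (k0 + (l + 1)) * α) - p (l + 1) with he'
    have hee : |e| < δ := hrp l
    have hee' : |e'| < δ := hrp (l + 1)
    have hid : (((b : ℤ) * r (l + 1) * p l - r l * p (l + 1) : ℤ) : ℝ) =
        r l * e' - b * r (l + 1) * e := by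
      push_cast
      rw [he, he', ← add_assoc, pow_succ]
      ring
    have hlt : |(((b : ℤ) * r (l + 1) * p l - r l * p (l + 1) : ℤ) : ℝ)| < 1 := by
      rw [hid]
      have h2 : (r l : ℝ) * |e'| < (b : ℝ) ^ n * δ :=
        (mul_lt_mul_of_pos_left hee' ha).trans_le (mul_le_mul_of_nonneg_right ha'.le hδ0.le)
      have h3 : (r (l + 1) : ℝ) * |e| < (b : ℝ) ^ n * δ :=
        (mul_lt_mul_of_pos_left hee hc).trans_le (mul_le_mul_of_nonneg_right hc'.le hδ0.le)
      have h4 : (b : ℝ) ^ n * δ * (b + 1) = 1 := by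
        rw [hδ]
        field_simp
      calc |(r l : ℝ) * e' - b * r (l + 1) * e| ≤ |(r l : ℝ) * e'| + |(b : ℝ) * r (l + 1) * e| :=
            abs_sub _ _
        _ = r l * |e'| + b * (r (l + 1) * |e|) := by
            rw [abs_mul, abs_mul, abs_of_pos ha, abs_of_pos (by positivity : (0 : ℝ) < b * r (l + 1))]
            ring
        _ < 1 := by nlinarith
    have hz : (b : ℤ) * r (l + 1) * p l - r l * p (l + 1) = 0 := by
      rw [← Int.abs_lt_one_iff]
      exact_mod_cast hlt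
    have hz' : (b : ℝ) * r (l + 1) * p l = r l * p (l + 1) := by
      have : (b : ℤ) * r (l + 1) * p l = r l * p (l + 1) := by linarith
      exact_mod_cast this
    field_simp
    linarith
  have hall : ∀ l, (p l : ℝ) / r l = (b : ℝ) ^ l * (p 0 / r 0) := by
    intro l
    induction l with
    | zero => simp
    | succ l ih => rw [hstep, ih, pow_succ]; ring
  set c : ℝ := (b : ℝ) ^ k0 * α - p 0 / r 0 with hc
  have hc0 : c ≠ 0 := by
    intro h
    have hr : (0 : ℝ) < r 0 := by exact_mod_cast hr0 0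
    apply hα
    refine ⟨(p 0 : ℚ) / r 0 / (b : ℚ) ^ k0, ?_⟩
    push_cast
    rw [div_eq_iff (by positivity)]
    linarith
  have hbd : ∀ l : ℕ, (b : ℝ) ^ l * |c| < 1 := by
    intro l
    have hr : (1 : ℝ) ≤ r l := by exact_mod_cast hr0 l
    have h2 : (b : ℝ) ^ l * c = ((r l : ℝ) * ((b : ℝ) ^ (k0 + l) * α) - p l) / r l := by
      have hr' : (r l : ℝ) ≠ 0 := by positivity
      rw [sub_div, hall, hc, pow_add, mul_div_assoc]
      field_simp
    have h3 : |(b : ℝ) ^ l * c| < 1 := by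
      rw [h2, abs_div, abs_of_pos (by linarith : (0 : ℝ) < r l), div_lt_one (by linarith)]
      linarith [hrp l]
    rwa [abs_mul, abs_of_pos (by positivity : (0 : ℝ) < (b : ℝ) ^ l)] at h3
  have hcpos : 0 < |c| := abs_pos.2 hc0
  obtain ⟨l, hl⟩ := pow_unbounded_of_one_lt (1 / |c|) (by linarith : (1 : ℝ) < b)
  have := hbd l
  rw [div_lt_iff₀ hcpos] at hl
  linarith

/-- the `j`-th digit of `y` in base `b` (`j ≥ 1`) -/
noncomputable def digit (b : ℕ) (y : ℝ) (j : ℕ) : ℤ := ⌊y * (b : ℝ) ^ j⌋ % b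

/-- the word `w` of `k` digits stands in the base `b` expansion of `y` right after the `i`-th digit -/
def Stands (b k : ℕ) (w : ℕ → ℕ) (y : ℝ) (i : ℕ) : Prop :=
  ∀ s < k, digit b y (i + s + 1) = (w s : ℤ)

/-- the word `w` of `k` digits does not occur in the base `b` representation of `u < b ^ n` with `n`
digits (with leading zeros); `e` is the number of the digits on the right of a possible occurrence -/
def Avoids (b k : ℕ) (w : ℕ → ℕ) (n u : ℕ) : Prop :=
  ∀ e, e + k ≤ n → ∃ s < k, u / b ^ (e + (k - 1 - s)) % b ≠ w s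

/-- the number of the words of `n` digits in which `w` does not occur -/
noncomputable def av (b k : ℕ) (w : ℕ → ℕ) (n : ℕ) : ℕ := {u : ℕ | u < b ^ n ∧ Avoids b k w n u}.ncard

lemma floor_mod (b : ℕ) (hb : 2 ≤ b) (n K : ℕ) (hK : K < n) (k0 : ℕ) (y : ℝ) :
    ((⌊Int.fract (y * (b : ℝ) ^ k0) * (b : ℝ) ^ n⌋₊ / b ^ K % b : ℕ) : ℤ) = digit b y (k0 + (n - K)) := by
  have hb0 : (0 : ℝ) < b := by positivity
  set t := Int.fract (y * (b : ℝ) ^ k0) with ht
  have ht0 : 0 ≤ t := Int.fract_nonneg _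
  have h1 : ⌊t * (b : ℝ) ^ n⌋₊ / b ^ K = ⌊t * (b : ℝ) ^ (n - K)⌋₊ := by
    rw [← Nat.floor_div_natCast]
    congr 1
    push_cast
    rw [show (b : ℝ) ^ n = (b : ℝ) ^ (n - K) * (b : ℝ) ^ K by rw [← pow_add]; congr 1; omega]
    field_simp
  rw [h1]
  have h2 : y * (b : ℝ) ^ (k0 + (n - K)) =
      t * (b : ℝ) ^ (n - K) + ((⌊y * (b : ℝ) ^ k0⌋ * (b : ℤ) ^ (n - K) : ℤ) : ℝ) := by
    push_cast
    rw [pow_add, ← mul_assoc, ← add_mul]
    congr 1
    rw [ht]
    linarith [Int.fract_add_floor (y * (b : ℝ) ^ k0)]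
  unfold digit
  rw [h2, Int.floor_add_intCast]
  have h3 : (b : ℤ) ∣ ⌊y * (b : ℝ) ^ k0⌋ * (b : ℤ) ^ (n - K) :=
    Dvd.dvd.mul_left (dvd_pow_self _ (by omega)) _
  rw [Int.add_emod, Int.emod_eq_zero_of_dvd h3, add_zero, Int.emod_emod]
  push_cast
  rw [← Int.natCast_floor_eq_floor (by positivity)]

/-- **Upper bound.** -/
theorem upper (b : ℕ) (hb : 2 ≤ b) (k : ℕ) (w : ℕ → ℕ) (α : ℝ) (hα : Irrational α) (x : ℝ) (n : ℕ) :
    {m : ℕ | m < b ^ n ∧ {i : ℕ | Stands b k w (x + m * α) i}.Finite}.ncard ≤ (b + 1) * av b k w n := by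
  classical
  have hb0 : (0 : ℝ) < b := by positivity
  set E : Set ℕ := {m : ℕ | m < b ^ n ∧ {i : ℕ | Stands b k w (x + m * α) i}.Finite} with hE
  have hEf : E.Finite := (Set.finite_lt_nat (b ^ n)).subset fun m hm => hm.1
  -- a place after which the word does not stand
  obtain ⟨k0, hk0⟩ : ∃ k0, ∀ m ∈ E, ∀ i, k0 ≤ i → ¬ Stands b k w (x + m * α) i := by
    have h1 : ∀ m : ℕ, ∃ B, m ∈ E → ∀ i, B ≤ i → ¬ Stands b k w (x + m * α) i := by
      intro m
      by_cases hm : m ∈ E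
      · obtain ⟨B, hB⟩ := hm.2.bddAbove
        refine ⟨B + 1, fun _ i hi hs => ?_⟩
        have := hB hs
        omega
      · exact ⟨0, fun h => absurd h hm⟩
    choose B hB using h1
    refine ⟨(Finset.range (b ^ n)).sup B, fun m hm i hi => hB m hm i ?_⟩
    exact (Finset.le_sup (Finset.mem_range.2 hm.1)).trans hi
  obtain ⟨q, hq, hgood⟩ := exists_good α hα b hb n k0
  -- the first `n` digits after the place `q` and one more digit in base `b + 1`
  set t : ℕ → ℝ := fun m => Int.fract ((x + m * α) * (b : ℝ) ^ q) with ht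
  set F : ℕ → ℕ × ℕ := fun m =>
    (⌊t m * (b : ℝ) ^ n⌋₊, ⌊Int.fract (t m * (b : ℝ) ^ n) * (b + 1)⌋₊) with hF
  have hmap : ∀ m ∈ E, F m ∈ ({u : ℕ | u < b ^ n ∧ Avoids b k w n u} ×ˢ {v : ℕ | v < b + 1} : Set (ℕ × ℕ)) := by
    intro m hm
    have ht0 : 0 ≤ t m := Int.fract_nonneg _
    have ht1 : t m < 1 := Int.fract_lt_one _
    refine ⟨⟨?_, ?_⟩, ?_⟩
    · show ⌊t m * (b : ℝ) ^ n⌋₊ < b ^ n
      rw [Nat.floor_lt (by positivity)]
      push_cast
      have : (0 : ℝ) < (b : ℝ) ^ n := by positivity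
      nlinarith
    · intro e he
      by_contra hcon
      push Not at hcon
      refine hk0 m hm (q + (n - e - k)) (by omega) fun s hs => ?_
      have h1 := floor_mod b hb n (e + (k - 1 - s)) (by omega) q (x + m * α)
      rw [← (hcon s hs : ⌊t m * (b : ℝ) ^ n⌋₊ / b ^ (e + (k - 1 - s)) % b = w s)]
      rw [show q + (n - e - k) + s + 1 = q + (n - (e + (k - 1 - s))) by omega]
      exact h1.symm
    · show ⌊Int.fract (t m * (b : ℝ) ^ n) * (b + 1)⌋₊ < b + 1
      rw [Nat.floor_lt (by have := Int.fract_nonneg (t m * (b : ℝ) ^ n); positivity)]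
      push_cast
      have := Int.fract_lt_one (t m * (b : ℝ) ^ n)
      nlinarith
  have hinj : Set.InjOn F E := by
    -- two equal values would give a good approximation
    have key : ∀ m ∈ E, ∀ m' ∈ E, m < m' → F m ≠ F m' := by
      intro m hm m' hm' hlt heq
      rw [hF, Prod.mk.injEq] at heq
      obtain ⟨h1, h2⟩ := heq
      have hB : (0 : ℝ) < (b : ℝ) ^ n := by positivity
      have hta : 0 ≤ t m * (b : ℝ) ^ n := mul_nonneg (Int.fract_nonneg _) hB.le
      have htb : 0 ≤ t m' * (b : ℝ) ^ n := mul_nonneg (Int.fract_nonneg _) hB.le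
      have h3 : ⌊t m * (b : ℝ) ^ n⌋ = ⌊t m' * (b : ℝ) ^ n⌋ := by
        rw [← Int.natCast_floor_eq_floor hta, ← Int.natCast_floor_eq_floor htb, h1]
      set f := Int.fract (t m * (b : ℝ) ^ n) with hf
      set f' := Int.fract (t m' * (b : ℝ) ^ n) with hf'
      have h4 : t m' * (b : ℝ) ^ n - t m * (b : ℝ) ^ n = f' - f := by
        rw [hf, hf', Int.fract, Int.fract, h3]
        ring
      have hf0 : 0 ≤ f * (b + 1) := mul_nonneg (Int.fract_nonneg _) (by positivity)
      have hf0' : 0 ≤ f' * (b + 1) := mul_nonneg (Int.fract_nonneg _) (by positivity)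
      have h5 : |f' * (b + 1) - f * (b + 1)| < 1 := by
        rw [abs_lt]
        have e1 := Nat.floor_le hf0
        have e2 := Nat.lt_floor_add_one (f * ((b : ℝ) + 1))
        have e3 := Nat.floor_le hf0'
        have e4 := Nat.lt_floor_add_one (f' * ((b : ℝ) + 1))
        have e5 : (⌊f * ((b : ℝ) + 1)⌋₊ : ℝ) = ⌊f' * ((b : ℝ) + 1)⌋₊ := by exact_mod_cast h2
        constructor <;> linarith
      have h6 := hgood (m' - m) (by omega) (by have := hm'.1; omega)
        (⌊(x + m' * α) * (b : ℝ) ^ q⌋ - ⌊(x + m * α) * (b : ℝ) ^ q⌋)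
      have h7 : (((m' - m : ℕ) : ℝ)) * ((b : ℝ) ^ q * α) -
          ((⌊(x + m' * α) * (b : ℝ) ^ q⌋ - ⌊(x + m * α) * (b : ℝ) ^ q⌋ : ℤ) : ℝ) = t m' - t m := by
        rw [ht, Nat.cast_sub hlt.le]
        simp only [Int.fract]
        push_cast
        ring
      rw [h7] at h6
      have h8 : |t m' - t m| * (b : ℝ) ^ n * (b + 1) < 1 := by
        have e6 : |t m' - t m| * (b : ℝ) ^ n * (b + 1) = |f' * (b + 1) - f * (b + 1)| := by
          rw [← sub_mul, ← h4, ← sub_mul, abs_mul, abs_mul, abs_of_pos hB,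
            abs_of_pos (by positivity : (0 : ℝ) < (b : ℝ) + 1)]
        rw [e6]
        exact h5
      rw [div_le_iff₀ (by positivity)] at h6
      nlinarith
    intro m hm m' hm' heq
    rcases lt_trichotomy m m' with h | h | h
    · exact absurd heq (key m hm m' hm' h)
    · exact h
    · exact absurd heq.symm (key m' hm' m hm h)
  have hfin : ({u : ℕ | u < b ^ n ∧ Avoids b k w n u} ×ˢ {v : ℕ | v < b + 1} : Set (ℕ × ℕ)).Finite :=
    ((Set.finite_lt_nat (b ^ n)).subset fun u hu => hu.1).prod (Set.finite_lt_nat (b + 1))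
  have h := Set.ncard_le_ncard_of_injOn F hmap hinj hfin
  refine h.trans ?_
  rw [Set.ncard_prod, mul_comm]
  have h9 : {v : ℕ | v < b + 1}.ncard = b + 1 := by
    rw [show {v : ℕ | v < b + 1} = ((Finset.range (b + 1) : Finset ℕ) : Set ℕ) by ext; simp,
      Set.ncard_coe_finset, Finset.card_range]
  rw [h9, av]

end Pool.Agent.R544.EM
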